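import Pool.Agent.Helper65.Inj.Defs

/-! Row F: the main theorem from the R-lemma and the J part, and the final assembly for subcubic bipartite graphs. -/

set_option autoImplicit false

namespace Pool.Agent.Helper7.Inj

open Classical Finset Pool.Agent.Helper65.Inj

/-- (a) -/
theorem main_of (hR : ST_R) (hJ : ST_J) : ST_Main := by
  intro A B _ _ H
  obtain ⟨J, D, hC, g, hg⟩ := hJ A B H
  obtain ⟨f, hf, -⟩ := hR A B (H.rs J D) hC
  set P : A → B → Prop := fun u b => u ∈ J ∨ (u ∉ J ∧ (H.rs J D).drp u b) with hP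
  have hpt : ∀ u b, u ∉ J → u ∈ H.pt b → u ∈ (H.rs J D).pt b := by
    intro u b h1 h2
    exact Finset.mem_filter.mpr ⟨Finset.mem_sdiff.mpr ⟨Finset.mem_univ _, h1⟩, (H.mem u b).mpr h2⟩
  refine ⟨fun u b => if P u b then (if g u b then 3 else 4) else (f u b).castLE (by norm_num), ?_⟩
  intro u v b b' huv hbb hu hv hv'
  have h3 : ∀ i : Fin 3, i.castLE (by norm_num : 3 ≤ 5) ≠ (3 : Fin 5) := by decide
  have h4 : ∀ i : Fin 3, i.castLE (by norm_num : 3 ≤ 5) ≠ (4 : Fin 5) := by decide
  by_cases h1 : P u b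
  · by_cases h2 : P v b'
    · have h5 := hg u v b b' huv hbb hu hv hv' h1 h2
      simp only [if_pos h1, if_pos h2]
      cases h6 : g u b <;> cases h7 : g v b' <;> simp_all
    · simp only [if_pos h1, if_neg h2]
      cases g u b
      · simpa using (h4 _).symm
      · simpa using (h3 _).symm
  · by_cases h2 : P v b'
    · simp only [if_neg h1, if_pos h2]
      cases g v b'
      · simpa using h4 _
      · simpa using h3 _
    · simp only [if_neg h1, if_neg h2]
      have hu1 : u ∉ J := fun h => h1 (Or.inl h)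
      have hv1 : v ∉ J := fun h => h2 (Or.inl h)
      have hu2 : ¬ (H.rs J D).drp u b := fun h => h1 (Or.inr ⟨hu1, h⟩)
      have hv2 : ¬ (H.rs J D).drp v b' := fun h => h2 (Or.inr ⟨hv1, h⟩)
      have h5 := hf u v b b' huv hbb (hpt u b hu1 hu) (hpt v b hv1 hv) (hpt v b' hv1 hv') hu2 hv2
      intro h6
      exact h5 (Fin.castLE_injective _ h6)

/-- degree as the cardinality of a filter -/
noncomputable def dgr {V : Type*} [Fintype V] (G : SimpleGraph V) (v : V) : ℕ :=
  (univ.filter fun w => G.Adj v w).card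

/-- cubic case -/
theorem cubic (hM : ST_Main) (V : Type) [Fintype V] (G : SimpleGraph V) (hd : ∀ v, dgr G v = 3)
    (C : G.Coloring (Fin 2)) : InjCol G := by
  have two : ∀ i : Fin 2, i ≠ 0 → i = 1 := by decide
  have two' : ∀ i : Fin 2, i ≠ 1 → i = 0 := by decide
  have h01 : ∀ u v, G.Adj u v → C u = 0 → C v = 1 := fun u v h h0 => two _ fun h1 => C.valid h (h0.trans h1.symm)
  have h10 : ∀ u v, G.Adj u v → C u = 1 → C v = 0 := fun u v h h0 => two' _ fun h1 => C.valid h (h0.trans h1.symm)
  let H : Cub {v : V // C v = 0} {v : V // C v = 1} :=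
    { bl := fun a => univ.filter fun b => G.Adj a.1 b.1
      pt := fun b => univ.filter fun a => G.Adj a.1 b.1
      mem := fun a b => by simp
      bl3 := fun a => by
        rw [← hd a.1]
        unfold dgr
        refine Finset.card_bij (fun b _ => b.1) ?_ ?_ ?_
        · intro b hb
          exact Finset.mem_filter.mpr ⟨Finset.mem_univ _, (Finset.mem_filter.mp hb).2⟩
        · intro b _ b' _ h
          exact Subtype.ext h
        · intro w hw
          have h1 := (Finset.mem_filter.mp hw).2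
          exact ⟨⟨w, h01 _ _ h1 a.2⟩, Finset.mem_filter.mpr ⟨Finset.mem_univ _, h1⟩, rfl⟩
      pt3 := fun b => by
        rw [← hd b.1]
        unfold dgr
        refine Finset.card_bij (fun a _ => a.1) ?_ ?_ ?_
        · intro a ha
          exact Finset.mem_filter.mpr ⟨Finset.mem_univ _, (Finset.mem_filter.mp ha).2.symm⟩
        · intro a _ a' _ h
          exact Subtype.ext h
        · intro w hw
          have h1 := (Finset.mem_filter.mp hw).2
          exact ⟨⟨w, h10 _ _ h1 b.2⟩, Finset.mem_filter.mpr ⟨Finset.mem_univ _, h1.symm⟩, rfl⟩ }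
  obtain ⟨f, hf⟩ := hM _ _ H
  let F : V → V → Fin 5 := fun u v =>
    if hu : C u = 0 then (if hv : C v = 1 then f ⟨u, hu⟩ ⟨v, hv⟩ else 0) else 0
  have hF : ∀ u v (hu : C u = 0) (hv : C v = 1), F u v = f ⟨u, hu⟩ ⟨v, hv⟩ := by
    intro u v hu hv
    simp only [F, dif_pos hu, dif_pos hv]
  have hF0 : ∀ u v, C u ≠ 0 → F u v = 0 := by
    intro u v hu
    simp only [F, dif_neg hu]
  have hF1 : ∀ u v, C v ≠ 1 → F u v = 0 := by
    intro u v hv
    simp only [F, dif_neg hv]
    split_ifs <;> rfl
  let c : Sym2 V → Fin 5 := Sym2.lift ⟨fun u v => if C u = 0 then F u v else F v u, by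
    intro u v
    by_cases hu : C u = 0
    · by_cases hv : C v = 0
      · simp only [if_pos hu, if_pos hv]
        rw [hF1 u v (by rw [hv]; decide), hF1 v u (by rw [hu]; decide)]
      · simp only [if_pos hu, if_neg hv]
    · by_cases hv : C v = 0
      · simp only [if_neg hu, if_pos hv]
      · simp only [if_neg hu, if_neg hv]
        rw [hF0 v u hv, hF0 u v hu]⟩
  have hc : ∀ u v (hu : C u = 0) (hv : C v = 1), c s(u, v) = f ⟨u, hu⟩ ⟨v, hv⟩ := by
    intro u v hu hv
    show (if C u = 0 then F u v else F v u) = _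
    rw [if_pos hu, hF u v hu hv]
  refine ⟨c, ?_⟩
  intro p q r s hpq hqr hrs hpr hqs
  by_cases hp : C p = 0
  · have hq := h01 _ _ hpq hp
    have hr := h10 _ _ hqr hq
    have hs := h01 _ _ hrs hr
    rw [hc p q hp hq, hc r s hr hs]
    refine hf ⟨p, hp⟩ ⟨r, hr⟩ ⟨q, hq⟩ ⟨s, hs⟩ ?_ ?_ ?_ ?_ ?_
    · exact fun h => hpr (congrArg Subtype.val h)
    · exact fun h => hqs (congrArg Subtype.val h)
    · exact Finset.mem_filter.mpr ⟨Finset.mem_univ _, hpq⟩
    · exact Finset.mem_filter.mpr ⟨Finset.mem_univ _, hqr.symm⟩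
    · exact Finset.mem_filter.mpr ⟨Finset.mem_univ _, hrs⟩
  · have hp' := two _ hp
    have hq := h10 _ _ hpq hp'
    have hr := h01 _ _ hqr hq
    have hs := h10 _ _ hrs hr
    rw [Sym2.eq_swap, hc q p hq hp', Sym2.eq_swap, hc s r hs hr]
    refine (hf ⟨s, hs⟩ ⟨q, hq⟩ ⟨r, hr⟩ ⟨p, hp'⟩ ?_ ?_ ?_ ?_ ?_).symm
    · exact fun h => hqs (congrArg Subtype.val h).symm
    · exact fun h => hpr (congrArg Subtype.val h).symm
    · exact Finset.mem_filter.mpr ⟨Finset.mem_univ _, hrs.symm⟩
    · exact Finset.mem_filter.mpr ⟨Finset.mem_univ _, hqr⟩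
    · exact Finset.mem_filter.mpr ⟨Finset.mem_univ _, hpq.symm⟩

/-- the double of a graph: two copies, the two copies of each vertex of degree less than 3 are joined -/
def dbl {V : Type} [Fintype V] (G : SimpleGraph V) : SimpleGraph (V × Bool) where
  Adj := fun x y => (x.2 = y.2 ∧ G.Adj x.1 y.1) ∨ (x.1 = y.1 ∧ x.2 ≠ y.2 ∧ dgr G x.1 < 3)
  symm := ⟨fun x y h => by
    rcases h with ⟨h1, h2⟩ | ⟨h1, h2, h3⟩
    · exact Or.inl ⟨h1.symm, h2.symm⟩
    · exact Or.inr ⟨h1.symm, h2.symm, h1 ▸ h3⟩⟩
  loopless := ⟨fun x h => by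
    rcases h with ⟨-, h2⟩ | ⟨-, h2, -⟩
    · exact G.loopless.irrefl _ h2
    · exact h2 rfl⟩

theorem dgr_dbl {V : Type} [Fintype V] (G : SimpleGraph V) (x : V × Bool) :
    dgr (dbl G) x = dgr G x.1 + (if dgr G x.1 < 3 then 1 else 0) := by
  obtain ⟨v, i⟩ := x
  have h1 : (univ.filter fun w => (dbl G).Adj (v, i) w) =
      ((univ.filter fun w => G.Adj v w).image fun w => (w, i)) ∪
        (if dgr G v < 3 then {(v, !i)} else ∅) := by
    ext ⟨w, j⟩
    simp only [Finset.mem_filter, Finset.mem_univ, true_and, Finset.mem_union, Finset.mem_image]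
    constructor
    · intro h
      rcases h with ⟨h2, h3⟩ | ⟨h2, h3, h4⟩
      · exact Or.inl ⟨w, h3, by simp only at h2; rw [h2]⟩
      · right
        simp only at h2 h3 h4
        rw [if_pos h4, Finset.mem_singleton]
        have h5 : j = !i := by cases i <;> cases j <;> simp_all
        rw [h2, h5]
    · intro h
      rcases h with ⟨w', h2, h3⟩ | h2
      · rw [Prod.mk.injEq] at h3
        obtain ⟨h3, h4⟩ := h3
        exact Or.inl ⟨h4, h3 ▸ h2⟩
      · right
        split_ifs at h2 with h4
        · rw [Finset.mem_singleton, Prod.mk.injEq] at h2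
          refine ⟨h2.1.symm, ?_, h4⟩
          show i ≠ j
          rw [h2.2]
          cases i <;> decide
        · simp at h2
  show (univ.filter fun w => (dbl G).Adj (v, i) w).card = _
  rw [h1, Finset.card_union_of_disjoint, Finset.card_image_of_injective]
  · congr 1
    split_ifs <;> simp
  · intro a b h
    exact (Prod.mk.injEq _ _ _ _ ▸ h : a = b ∧ i = i).1
  · rw [Finset.disjoint_left]
    intro y hy hy'
    split_ifs at hy' with h4
    · rw [Finset.mem_singleton] at hy'
      rw [Finset.mem_image] at hy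
      obtain ⟨w, -, h5⟩ := hy
      rw [hy', Prod.mk.injEq] at h5
      exact absurd h5.2 (by cases i <;> decide)
    · simp at hy'

theorem dbl_col {V : Type} [Fintype V] (G : SimpleGraph V) (hG : G.Colorable 2) : (dbl G).Colorable 2 := by
  obtain ⟨C⟩ := hG
  refine ⟨SimpleGraph.Coloring.mk (fun x => if x.2 then C x.1 else C x.1 + 1) ?_⟩
  intro x y h
  have hne : ∀ i : Fin 2, i ≠ i + 1 := by decide
  have hinj : ∀ i j : Fin 2, i ≠ j → i + 1 ≠ j + 1 := by decide
  rcases h with ⟨h1, h2⟩ | ⟨h1, h2, -⟩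
  · have h3 := C.valid h2
    rw [h1]
    split_ifs
    · exact h3
    · exact hinj _ _ h3
  · rw [h1]
    cases hx : x.2 <;> cases hy : y.2
    · exact absurd (hx.trans hy.symm) h2
    · simp
    · simp
    · exact absurd (hx.trans hy.symm) h2

theorem injCol_dbl {V : Type} [Fintype V] (G : SimpleGraph V) (h : InjCol (dbl G)) : InjCol G := by
  obtain ⟨c, hc⟩ := h
  refine ⟨fun e => c (e.map fun v => (v, true)), ?_⟩
  intro p q r s hpq hqr hrs hpr hqs
  have h1 := hc (p, true) (q, true) (r, true) (s, true) (Or.inl ⟨rfl, hpq⟩) (Or.inl ⟨rfl, hqr⟩)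
    (Or.inl ⟨rfl, hrs⟩) (fun h => hpr (congrArg Prod.fst h)) (fun h => hqs (congrArg Prod.fst h))
  simpa [Sym2.map_mk] using h1

/-- all degrees between `3 - d` and 3 -/
theorem step (hM : ST_Main) : ∀ (d : ℕ) (V : Type) [Fintype V] (G : SimpleGraph V),
    (∀ v, 3 ≤ dgr G v + d) → (∀ v, dgr G v ≤ 3) → G.Colorable 2 → InjCol G := by
  intro d
  induction d with
  | zero =>
    intro V _ G h1 h2 h3
    obtain ⟨C⟩ := h3
    exact cubic hM V G (fun v => le_antisymm (h2 v) (h1 v)) C
  | succ d ih =>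
    intro V _ G h1 h2 h3
    apply injCol_dbl G
    apply ih (V × Bool) (dbl G)
    · intro x
      rw [dgr_dbl]
      have := h1 x.1
      have := h2 x.1
      split_ifs <;> omega
    · intro x
      rw [dgr_dbl]
      have := h2 x.1
      split_ifs <;> omega
    · exact dbl_col G h3

theorem dgr_eq {V : Type*} [Fintype V] (G : SimpleGraph V) [DecidableRel G.Adj] (v : V) : dgr G v = G.degree v := by
  unfold dgr
  rw [← G.card_neighborFinset_eq_degree]
  congr 1
  ext w
  simp

/-- (b) -/
theorem fin : ST_Fin := by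
  intro hM V _ G _ hd hG
  exact step hM 3 V G (fun v => Nat.le_add_left 3 _) (fun v => by rw [dgr_eq]; exact hd v) hG

/-- transfer of an injective colouring along an equivalence -/
theorem injCol_of_equiv {V : Type*} {W : Type*} (G : SimpleGraph V) (e : V ≃ W)
    (h : InjCol (G.comap e.symm)) : InjCol G := by
  obtain ⟨c, hc⟩ := h
  refine ⟨fun s => c (s.map e), ?_⟩
  intro p q r s hpq hqr hrs hpr hqs
  have hA : ∀ a b, G.Adj a b → (G.comap e.symm).Adj (e a) (e b) := by
    intro a b hab
    rw [SimpleGraph.comap_adj, e.symm_apply_apply, e.symm_apply_apply]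
    exact hab
  have h1 := hc (e p) (e q) (e r) (e s) (hA _ _ hpq) (hA _ _ hqr) (hA _ _ hrs) (fun h => hpr (e.injective h))
    (fun h => hqs (e.injective h))
  simpa [Sym2.map_mk] using h1

/-- the theorem in every universe -/
theorem fin_univ (hM : ST_Main) {V : Type*} [Fintype V] (G : SimpleGraph V) [DecidableRel G.Adj]
    (hd : ∀ v, G.degree v ≤ 3) (hG : G.Colorable 2) : InjCol G := by
  have e := Fintype.equivFin V
  apply injCol_of_equiv G e
  apply step hM 3 _ _ (fun v => Nat.le_add_left 3 _)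
  · intro w
    have h1 : dgr (G.comap e.symm) w = dgr G (e.symm w) := by
      unfold dgr
      refine Finset.card_bij (fun b _ => e.symm b) ?_ ?_ ?_
      · intro b hb
        simp only [Finset.mem_filter, Finset.mem_univ, true_and] at hb ⊢
        exact hb
      · intro b _ b' _ h
        exact e.symm.injective h
      · intro x hx
        simp only [Finset.mem_filter, Finset.mem_univ, true_and] at hx
        refine ⟨e x, ?_, e.symm_apply_apply x⟩
        simp only [Finset.mem_filter, Finset.mem_univ, true_and]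
        rw [SimpleGraph.comap_adj, e.symm_apply_apply]
        exact hx
    rw [h1, dgr_eq]
    exact hd _
  · obtain ⟨C⟩ := hG
    refine ⟨SimpleGraph.Coloring.mk (fun w => C (e.symm w)) ?_⟩
    intro a b hab
    exact C.valid hab

/-- the theorem for finite vertex types, degrees as cardinalities of neighbour sets -/
theorem fin_ncard (hM : ST_Main) {V : Type*} [Finite V] (G : SimpleGraph V)
    (hd : ∀ v, (G.neighborSet v).ncard ≤ 3) (hG : G.Colorable 2) : InjCol G := by
  have hV : Fintype V := Fintype.ofFinite V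
  refine fin_univ hM G (fun v => ?_) hG
  have h1 := hd v
  rwa [Set.ncard_eq_toFinset_card', ← SimpleGraph.neighborFinset_def, SimpleGraph.card_neighborFinset_eq_degree] at h1

end Pool.Agent.Helper7.Inj
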